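import Mathlib
import Pool.Agent.Q299.MinTop

set_option autoImplicit false

namespace Pool.Agent.Results.MP_6e9b54_lc.PointwiseMinimal

open FirstOrder Pool.Agent.Q299.MinTop Topology

/-- The topology of pointwise convergence on the endomorphism monoid of `A`: the topology induced by
the product topology on `A → A`, where `A` is discrete. -/
@[reducible] def pwTop (L : FirstOrder.Language.{0, 0}) (A : Type) [L.Structure A] :
    TopologicalSpace (A →[L] A) :=
  TopologicalSpace.induced (fun (f : A →[L] A) (x : A) => f x)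
    (@Pi.topologicalSpace A (fun _ => A) (fun _ => ⊥))

/-- The automorphism group of `A` has only finitely many orbits on `n`-tuples, for each `n`. -/
def OligomorphicAut (L : FirstOrder.Language.{0, 0}) (A : Type) [L.Structure A] : Prop :=
  ∀ n : ℕ, ∃ R : Set (Fin n → A), R.Finite ∧
    ∀ x : Fin n → A, ∃ r ∈ R, ∃ g : A ≃[L] A, ∀ i, g (x i) = r i

/-- `τ` makes the composition of endomorphisms jointly continuous. -/
def IsSemigroupTopology (L : FirstOrder.Language.{0, 0}) (A : Type) [L.Structure A]
    (τ : TopologicalSpace (A →[L] A)) : Prop :=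
  @Continuous ((A →[L] A) × (A →[L] A)) (A →[L] A)
    (@instTopologicalSpaceProd _ _ τ τ) τ (fun p => p.1.comp p.2)

theorem isOpen_pw (L : FirstOrder.Language.{0, 0}) (A : Type) [L.Structure A] (V : Set (A →[L] A)) :
    IsOpen[pwTop L A] V ↔ ∀ f ∈ V, ∃ F : Finset A, ∀ g : A →[L] A, (∀ x ∈ F, g x = f x) → g ∈ V := by
  classical
  let _ : TopologicalSpace A := ⊥
  have : DiscreteTopology A := ⟨rfl⟩
  constructor
  · rintro ⟨W, hW, rfl⟩ f hf
    obtain ⟨I, u, hu1, hu2⟩ := isOpen_pi_iff.1 hW (fun x => f x) hf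
    refine ⟨I, fun g hg => hu2 ?_⟩
    intro x hx
    have := (hu1 x hx).2
    change g x ∈ u x
    rw [hg x hx]
    exact this
  · intro h
    refine ⟨{w | ∃ f ∈ V, ∃ F : Finset A, (∀ g : A →[L] A, (∀ x ∈ F, g x = f x) → g ∈ V) ∧
      ∀ x ∈ F, w x = f x}, ?_, ?_⟩
    · rw [isOpen_iff_forall_mem_open]
      rintro w ⟨f, hf, F, hF, hw⟩
      refine ⟨⋂ x ∈ F, (fun y : A → A => y x) ⁻¹' {f x}, ?_, ?_, ?_⟩
      · intro w' hw'
        refine ⟨f, hf, F, hF, fun x hx => ?_⟩
        have := Set.mem_iInter₂.1 hw' x hx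
        exact this
      · apply isOpen_biInter_finset
        intro x _
        exact (isOpen_discrete _).preimage (continuous_apply x)
      · simp only [Set.mem_iInter]
        intro x hx
        exact hw x hx
    · ext g
      constructor
      · rintro ⟨f, hf, F, hF, hg⟩
        exact hF g hg
      · intro hg
        obtain ⟨F, hF⟩ := h g hg
        exact ⟨g, hg, F, hF, fun x _ => rfl⟩

/-- Let `A` be a countable structure with oligomorphic automorphism group. Every Hausdorff semigroup
topology on the endomorphism monoid which is coarser than the pointwise convergence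
topology is equal to it. -/
theorem result (L : FirstOrder.Language.{0, 0}) (A : Type) [L.Structure A] [Countable A]
    (hA : OligomorphicAut L A) (τ : TopologicalSpace (A →[L] A)) (hT2 : @T2Space _ τ)
    (hmul : IsSemigroupTopology L A τ) (hle : pwTop L A ≤ τ) : τ = pwTop L A := by
  classical
  -- the group of automorphisms as permutations
  let G : Subgroup (Equiv.Perm A) :=
    { carrier := {g | ∃ h : A ≃[L] A, ∀ x, g x = h x}
      one_mem' := ⟨FirstOrder.Language.Equiv.refl L A, fun x => rfl⟩
      mul_mem' := by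
        rintro g g' ⟨h, hh⟩ ⟨h', hh'⟩
        exact ⟨h.comp h', fun x => by
          change g (g' x) = h (h' x)
          rw [hh, hh']⟩
      inv_mem' := by
        rintro g ⟨h, hh⟩
        refine ⟨h.symm, fun x => ?_⟩
        change g.symm x = h.symm x
        rw [Equiv.symm_apply_eq, hh]
        exact (h.apply_symm_apply x).symm }
  have hG : Olig G := by
    intro n
    obtain ⟨R, hR, h⟩ := hA n
    refine ⟨R, hR, fun x => ?_⟩
    obtain ⟨r, hr, g, hg⟩ := h x
    exact ⟨r, hr, g.toEquiv, ⟨g, fun x => rfl⟩, hg⟩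
  let S : Set (A → A) := Set.range (fun (f : A →[L] A) (x : A) => f x)
  have hinj : Function.Injective (fun (f : A →[L] A) (x : A) => f x) := by
    intro f g h
    exact DFunLike.coe_injective h
  let e : (A →[L] A) ≃ S := Equiv.ofInjective _ hinj
  have he : ∀ f : A →[L] A, (e f).1 = fun x => f x := fun f => rfl
  have he' : ∀ s : S, ∀ x, e.symm s x = s.1 x := by
    intro s x
    have : (e (e.symm s)).1 = s.1 := by rw [Equiv.apply_symm_apply]
    exact congrFun this x
  have hS : FinClosed S := by
    intro f hf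
    refine ⟨⟨f, ?_, ?_⟩, rfl⟩
    · intro n F x
      obtain ⟨g, ⟨g, rfl⟩, hg⟩ := hf (insert (FirstOrder.Language.Structure.funMap F x) (Finset.univ.image x))
      have h1 := hg _ (Finset.mem_insert_self _ _)
      rw [← h1]
      have h2 : f ∘ x = g ∘ x := by
        funext i
        exact (hg (x i) (Finset.mem_insert_of_mem (Finset.mem_image_of_mem _ (Finset.mem_univ _)))).symm
      rw [h2]
      exact g.map_fun F x
    · intro n F x hx
      obtain ⟨g, ⟨g, rfl⟩, hg⟩ := hf (Finset.univ.image x)
      have h2 : f ∘ x = g ∘ x := by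
        funext i
        exact (hg (x i) (Finset.mem_image_of_mem _ (Finset.mem_univ _))).symm
      rw [h2]
      exact g.map_rel F x hx
  have hGS : ∀ g ∈ G, (g : A → A) ∈ S := by
    rintro g ⟨h, hh⟩
    refine ⟨h.toHom, ?_⟩
    funext x
    exact (hh x).symm
  have hmulS : ∀ f ∈ S, ∀ g ∈ S, f ∘ g ∈ S := by
    rintro _ ⟨f, rfl⟩ _ ⟨g, rfl⟩
    exact ⟨f.comp g, rfl⟩
  -- transport the topology
  let τS : TopologicalSpace S := TopologicalSpace.induced e.symm τ
  have hopen : ∀ V : Set S, IsOpen[τS] V ↔ IsOpen[τ] (e ⁻¹' V) := by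
    intro V
    constructor
    · rintro ⟨W, hW, rfl⟩
      have : e ⁻¹' (e.symm ⁻¹' W) = W := by
        ext x; simp
      rw [this]
      exact hW
    · intro h
      refine ⟨_, h, ?_⟩
      ext x; simp
  have hT2S : @T2Space S τS := by
    refine @T2Space.mk S τS ?_
    intro x y hxy
    obtain ⟨U, V, hU, hV, hx, hy, hUV⟩ := @T2Space.t2 _ τ hT2 (e.symm x) (e.symm y)
      (fun h => hxy (e.symm.injective h))
    exact ⟨e.symm ⁻¹' U, e.symm ⁻¹' V, ⟨U, hU, rfl⟩, ⟨V, hV, rfl⟩, hx, hy, hUV.preimage _⟩
  have key := fun a b => core hG S hS hGS hmulS τS hT2S (by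
      intro V hV s hs
      rw [hopen] at hV
      have h1 : IsOpen[pwTop L A] (e ⁻¹' V) := hle _ hV
      obtain ⟨F, hF⟩ := (isOpen_pw L A _).1 h1 (e.symm s) (by simpa using hs)
      refine ⟨F, fun g hg => ?_⟩
      have := hF (e.symm g) (fun x hx => by rw [he', he', hg x hx])
      simpa using this) (by
      intro f g V hV hfg
      rw [hopen] at hV
      have h1 := hmul.isOpen_preimage _ hV
      have h2 : (e.symm f, e.symm g) ∈ (fun p : (A →[L] A) × (A →[L] A) => p.1.comp p.2) ⁻¹'
          (e ⁻¹' V) := by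
        change e ((e.symm f).comp (e.symm g)) ∈ V
        convert hfg using 1
        apply Subtype.ext
        rw [he]
        funext x
        change e.symm f (e.symm g x) = f.1 (g.1 x)
        rw [he', he']
      obtain ⟨W1, W2, hW1, hW2, hf, hg, hsub⟩ := (@isOpen_prod_iff _ _ τ τ _).1 h1 _ _ h2
      refine ⟨e.symm ⁻¹' W1, e.symm ⁻¹' W2, ⟨W1, hW1, rfl⟩, ⟨W2, hW2, rfl⟩, hf, hg, ?_⟩
      intro f' hf' g' hg'
      have h3 := @hsub (e.symm f', e.symm g') ⟨hf', hg'⟩
      change e ((e.symm f').comp (e.symm g')) ∈ V at h3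
      convert h3 using 1
      apply Subtype.ext
      rw [he]
      funext x
      change f'.1 (g'.1 x) = e.symm f' (e.symm g' x)
      rw [he', he']) a b
  refine le_antisymm ?_ hle
  -- every pointwise open set is open for `τ`
  intro V hV
  change @IsOpen _ (pwTop L A) V at hV
  change @IsOpen _ τ V
  rw [isOpen_pw] at hV
  let _ : TopologicalSpace (A →[L] A) := τ
  rw [isOpen_iff_forall_mem_open]
  intro f hf
  obtain ⟨F, hF⟩ := hV f hf
  refine ⟨⋂ x ∈ F, {g : A →[L] A | g x = f x}, ?_, ?_, ?_⟩
  · intro g hg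
    exact hF g fun x hx => Set.mem_iInter₂.1 hg x hx
  · apply isOpen_biInter_finset
    intro x _
    have := key x (f x)
    rw [hopen] at this
    exact this
  · simp only [Set.mem_iInter]
    intro x _
    rfl

end Pool.Agent.Results.MP_6e9b54_lc.PointwiseMinimal
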